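import Pool.Agent.H23.KD.C20e.Chain
import Pool.Agent.H8.KA.L20e.E0
import Pool.Agent.H8.KA.L20e.E1
import Pool.Agent.H8.KA.L20e.I0
import Pool.Agent.H8.KA.L20e.I1

set_option autoImplicit false
set_option maxRecDepth 100000
set_option linter.all false

namespace Pool.Agent.H8.KA.L20e

open Pool.Agent.H23.KD Pool.Agent.H8.KA

/-- there is no function with the facts -/
theorem cert (f : ℕ → ℤ) (hf : FKP 2 20 f) : False := by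
  refine Pool.Agent.H23.KD.C20e.no_val (w := wF VT f) (val_of (VT := VT) ?_ ?_)
  · exact ⟨⟨⟨⟨(equAllX hf HE0), (equAllX hf HE8)⟩, ⟨(equAllX hf HE4), (equAllX hf HE12)⟩⟩, ⟨⟨(equAllX hf HE2), (equAllX hf HE10)⟩, ⟨(equAllX hf HE6), (equAllX hf HE14)⟩⟩⟩, ⟨⟨⟨(equAllX hf HE1), (equAllX hf HE9)⟩, ⟨(equAllX hf HE5), (equAllX hf HE13)⟩⟩, ⟨⟨(equAllX hf HE3), (equAllX hf HE11)⟩, ⟨(equAllX hf HE7), (equAllX hf HE15)⟩⟩⟩⟩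
  · exact ⟨⟨⟨⟨(impAll hf.toFK (XT := XT) HI0), (impAll hf.toFK (XT := XT) HI8)⟩, ⟨(impAll hf.toFK (XT := XT) HI4), (impAll hf.toFK (XT := XT) HI12)⟩⟩, ⟨⟨(impAll hf.toFK (XT := XT) HI2), (impAll hf.toFK (XT := XT) HI10)⟩, ⟨(impAll hf.toFK (XT := XT) HI6), (impAll hf.toFK (XT := XT) HI14)⟩⟩⟩, ⟨⟨⟨(impAll hf.toFK (XT := XT) HI1), (impAll hf.toFK (XT := XT) HI9)⟩, ⟨(impAll hf.toFK (XT := XT) HI5), (impAll hf.toFK (XT := XT) HI13)⟩⟩, ⟨⟨(impAll hf.toFK (XT := XT) HI3), (impAll hf.toFK (XT := XT) HI11)⟩, ⟨(impAll hf.toFK (XT := XT) HI7), (impAll hf.toFK (XT := XT) HI15)⟩⟩⟩⟩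

end Pool.Agent.H8.KA.L20e
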